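import Pool.Agent.Lib.MP_e6ed9e_al.DG.Defs

/-!
# Row DG: a subgroup with few images makes a group of diagonal type nonspreading
-/

namespace SpreadPerm.DG

open MulAction

/-- DG -/
theorem dg18 : StDG := by
  classical
  intro T G _ _ _ _ _ _ A H k hHol hbot htop hk hnum
  -- the images
  let KK : Set (Subgroup T) := {K : Subgroup T | ∃ α ∈ A, K = H.map α.toMonoidHom}
  have hfin : KK.Finite := Set.toFinite KK
  have hKidx : ∀ K ∈ KK, K.index = H.index := by
    rintro K ⟨α, -, rfl⟩
    have h1 : Nat.card (H.map α.toMonoidHom) = Nat.card H :=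
      (Nat.card_congr (H.equivMapOfInjective α.toMonoidHom α.injective).toEquiv).symm
    have h2 := (H.map α.toMonoidHom).card_mul_index
    have h3 := H.card_mul_index
    rw [h1, ← h3] at h2
    exact Nat.eq_of_mul_eq_mul_left Nat.card_pos h2
  have : Fintype KK := hfin.fintype
  have : ∀ K : KK, Fintype (T ⧸ K.1) := fun K => Fintype.ofFinite _
  let f : (Σ K : KK, T ⧸ K.1) → (T → ℚ) := fun p i =>
    if (QuotientGroup.mk i : T ⧸ p.1.1) = p.2 then 1 else 0
  have hcardι : Fintype.card (Σ K : KK, T ⧸ K.1) ≤ H.index * k := by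
    rw [Fintype.card_sigma]
    calc ∑ K : KK, Fintype.card (T ⧸ K.1) = ∑ _K : KK, H.index := by
          refine Finset.sum_congr rfl fun K _ => ?_
          rw [← hKidx K.1 K.2, Subgroup.index_eq_card, Nat.card_eq_fintype_card]
      _ = Fintype.card KK * H.index := by
          rw [Finset.sum_const, Finset.card_univ, smul_eq_mul]
      _ ≤ k * H.index := by
          refine Nat.mul_le_mul_right _ ?_
          rw [← Nat.card_eq_fintype_card, Nat.card_coe_set_eq]
          exact hk
      _ = H.index * k := mul_comm _ _
  -- each translate is the indicator of a coset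
  have hr : Set.range (vec (G := G) (H : Set T)) ⊆ Set.range f := by
    rintro _ ⟨g, rfl⟩
    obtain ⟨c, α, hα, hg⟩ := hHol g
    have hK : H.map α.toMonoidHom ∈ KK := ⟨α, hα, rfl⟩
    refine ⟨⟨⟨_, hK⟩, QuotientGroup.mk c⟩, ?_⟩
    funext i
    rw [vec_apply]
    have key : (QuotientGroup.mk i : T ⧸ H.map α.toMonoidHom) = QuotientGroup.mk c ↔
        g⁻¹ • i ∈ (H : Set T) := by
      rw [eq_comm, QuotientGroup.eq, Subgroup.mem_map]
      rcases hg with hg | hg
      · constructor
        · rintro ⟨h, hh, he⟩
          have h1 : g • h = i := by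
            rw [hg]
            have h2 : α h = c⁻¹ * i := he
            rw [h2, mul_inv_cancel_left]
          rw [← h1, inv_smul_smul]
          exact hh
        · intro hi
          refine ⟨g⁻¹ • i, hi, ?_⟩
          show α (g⁻¹ • i) = c⁻¹ * i
          have h1 := hg (g⁻¹ • i)
          rw [smul_inv_smul] at h1
          rw [eq_inv_mul_iff_mul_eq]
          exact h1.symm
      · constructor
        · rintro ⟨h, hh, he⟩
          have h1 : g • h⁻¹ = i := by
            rw [hg, map_inv, inv_inv]
            have h2 : α h = c⁻¹ * i := he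
            rw [h2, mul_inv_cancel_left]
          rw [← h1, inv_smul_smul]
          exact H.inv_mem hh
        · intro hi
          refine ⟨(g⁻¹ • i)⁻¹, H.inv_mem hi, ?_⟩
          show α (g⁻¹ • i)⁻¹ = c⁻¹ * i
          have h1 := hg (g⁻¹ • i)
          rw [smul_inv_smul] at h1
          rw [map_inv, eq_inv_mul_iff_mul_eq]
          exact h1.symm
    show (if (QuotientGroup.mk i : T ⧸ H.map α.toMonoidHom) = QuotientGroup.mk c then (1 : ℚ)
      else 0) = _
    by_cases h : g⁻¹ • i ∈ (H : Set T)
    · rw [if_pos h, if_pos (key.2 h)]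
    · rw [if_neg h, if_neg fun h' => h (key.1 h')]
  have hfr : Module.finrank ℚ (gen G (H : Set T)) ≤ H.index * k := by
    have h1 : gen G (H : Set T) ≤ Submodule.span ℚ (Set.range f) := Submodule.span_mono hr
    have : Module.Finite ℚ (Submodule.span ℚ (Set.range f)) :=
      Module.Finite.span_of_finite ℚ (Set.finite_range f)
    exact (Submodule.finrank_mono h1).trans ((finrank_range_le_card f).trans hcardι)
  -- the finite set
  let S : Finset T := Finset.univ.filter fun x => x ∈ H
  have hScoe : (S : Set T) = (H : Set T) := by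
    ext x
    simp [S]
  have hScard : S.card = Nat.card H := by
    rw [Nat.card_eq_fintype_card, Fintype.card_subtype]
  have hH1 : 1 < Nat.card H := (Subgroup.one_lt_card_iff_ne_bot H).2 hbot
  have hH2 : Nat.card H < Fintype.card T := by
    rw [← Nat.card_eq_fintype_card]
    refine lt_of_le_of_ne H.card_le_card_group ?_
    intro h
    exact htop (H.eq_top_of_card_eq h)
  refine nonspreading_of_small (G := G) S (by rw [hScard]; exact hH1) (by rw [hScard]; exact hH2) ?_
  rw [hScoe, hScard, ← Nat.card_eq_fintype_card]
  exact lt_of_le_of_lt (Nat.pow_le_pow_right (by omega) hfr) hnum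

end SpreadPerm.DG
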