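import Pool.Agent.Lib.MP_e6ed9e_al.DG.Defs

/-!
# Groups of diagonal type with socle `PSL(n,q) × PSL(n,q)`
-/

namespace SpreadPerm.DG

open MulAction Module

/-- `∏ (1 - 2^{-i}) ≥ 1/4 + 2^{-(n+1)}`. -/
theorem prod25 (n : ℕ) :
    (1 / 4 : ℝ) + (1 / 2) ^ (n + 1) ≤ ∏ j ∈ Finset.range n, (1 - (1 / 2 : ℝ) ^ (j + 1)) := by
  induction n with
  | zero => norm_num
  | succ n ih =>
    rw [Finset.prod_range_succ]
    rcases Nat.eq_zero_or_pos n with rfl | hn
    · norm_num
    have h1 : (0 : ℝ) < (1 / 2) ^ (n + 1) := by positivity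
    have h2 : ((1 / 2 : ℝ)) ^ (n + 1) ≤ 1 / 4 := by
      calc ((1 / 2 : ℝ)) ^ (n + 1) ≤ (1 / 2) ^ 2 :=
            pow_le_pow_of_le_one (by norm_num) (by norm_num) (by omega)
        _ = 1 / 4 := by norm_num
    set t : ℝ := (1 / 2) ^ (n + 1) with ht
    have h3 : ((1 / 2 : ℝ)) ^ (n + 1 + 1) = t / 2 := by rw [pow_succ]; ring
    rw [h3]
    calc (1 / 4 : ℝ) + t / 2 ≤ (1 / 4 + t) * (1 - t) := by nlinarith
      _ ≤ _ := mul_le_mul_of_nonneg_right ih (by linarith)

/-- `|GL(n,q)| ≥ q^{n^2} / 4`. -/
theorem cardGL25 (n : ℕ) (F : Type) [Field F] [Fintype F] :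
    Fintype.card F ^ (n * n) ≤ 4 * Nat.card (GL (Fin n) F) := by
  have hq : 2 ≤ Fintype.card F := Fintype.one_lt_card
  set q := Fintype.card F with hqdef
  have hqr : (2 : ℝ) ≤ q := by exact_mod_cast hq
  have hq0 : (0 : ℝ) < q := by linarith
  rw [Matrix.card_GL_field]
  have h1 : ((∏ i : Fin n, (q ^ n - q ^ (i : ℕ)) : ℕ) : ℝ) =
      ∏ i ∈ Finset.range n, ((q : ℝ) ^ n - (q : ℝ) ^ i) := by
    rw [Nat.cast_prod, Finset.prod_range]
    refine Finset.prod_congr rfl fun i _ => ?_
    rw [Nat.cast_sub (Nat.pow_le_pow_right (by omega) (by omega))]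
    push_cast
    rfl
  have h2 : ∏ i ∈ Finset.range n, ((q : ℝ) ^ n - (q : ℝ) ^ i) =
      (q : ℝ) ^ (n * n) * ∏ j ∈ Finset.range n, (1 - (1 / (q : ℝ)) ^ (j + 1)) := by
    have h0 : (q : ℝ) ^ (n * n) = ∏ _j ∈ Finset.range n, (q : ℝ) ^ n := by
      rw [Finset.prod_const, Finset.card_range, pow_mul]
    rw [← Finset.prod_range_reflect, h0, ← Finset.prod_mul_distrib]
    refine Finset.prod_congr rfl fun j hj => ?_
    have hj' : j < n := Finset.mem_range.1 hj
    have h3 : (q : ℝ) ^ n = (q : ℝ) ^ (n - 1 - j) * (q : ℝ) ^ (j + 1) := by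
      rw [← pow_add]
      congr 1
      omega
    rw [mul_sub, mul_one]
    congr 1
    rw [h3, div_pow, one_pow, mul_assoc, mul_one_div_cancel (by positivity), mul_one]
  have h4 : (1 / 4 : ℝ) ≤ ∏ j ∈ Finset.range n, (1 - (1 / (q : ℝ)) ^ (j + 1)) := by
    calc (1 / 4 : ℝ) ≤ 1 / 4 + (1 / 2) ^ (n + 1) := by
          have : (0 : ℝ) < (1 / 2) ^ (n + 1) := by positivity
          linarith
      _ ≤ ∏ j ∈ Finset.range n, (1 - (1 / 2 : ℝ) ^ (j + 1)) := prod25 n
      _ ≤ _ := by
          refine Finset.prod_le_prod (fun j _ => ?_) fun j _ => ?_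
          · have : ((1 / 2 : ℝ)) ^ (j + 1) ≤ 1 := pow_le_one₀ (by norm_num) (by norm_num)
            linarith
          · have h5 : (1 / (q : ℝ)) ^ (j + 1) ≤ (1 / 2) ^ (j + 1) :=
              pow_le_pow_left₀ (by positivity) (one_div_le_one_div_of_le (by norm_num) hqr) _
            linarith
  have h6 : ((q ^ (n * n) : ℕ) : ℝ) ≤ ((4 * ∏ i : Fin n, (q ^ n - q ^ (i : ℕ)) : ℕ) : ℝ) := by
    rw [Nat.cast_mul, h1, h2]
    push_cast
    have h7 : (0 : ℝ) < (q : ℝ) ^ (n * n) := by positivity
    nlinarith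
  exact_mod_cast h6

/-- `|GL| ≤ |SL| (q - 1)`. -/
theorem cardSL25 (n : ℕ) (F : Type) [Field F] [Fintype F] :
    Nat.card (GL (Fin n) F) ≤
      Nat.card (Matrix.SpecialLinearGroup (Fin n) F) * (Fintype.card F - 1) := by
  classical
  let D : GL (Fin n) F →* Fˣ := Matrix.GeneralLinearGroup.det
  have h1 : Nat.card D.ker * Nat.card D.range = Nat.card (GL (Fin n) F) := by
    rw [← Subgroup.index_ker D]
    exact Subgroup.card_mul_index D.ker
  have h2 : Nat.card D.range ≤ Fintype.card F - 1 := by
    calc Nat.card D.range ≤ Nat.card Fˣ := Subgroup.card_le_card_group _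
      _ = Fintype.card F - 1 := by rw [Nat.card_eq_fintype_card, Fintype.card_units]
  have h3 : Nat.card D.ker ≤ Nat.card (Matrix.SpecialLinearGroup (Fin n) F) := by
    let f : D.ker → Matrix.SpecialLinearGroup (Fin n) F := fun g =>
      ⟨g.1.1, by
        have := congrArg Units.val (MonoidHom.mem_ker.1 g.2)
        exact this⟩
    refine Nat.card_le_card_of_injective f fun g g' h => ?_
    have h4 : (g.1.1 : Matrix (Fin n) (Fin n) F) = g'.1.1 := congrArg Subtype.val h
    exact Subtype.ext (Units.ext h4)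
  rw [← h1]
  exact Nat.mul_le_mul h3 h2

/-- The center has at most `n` elements. -/
theorem cardZ25 (n : ℕ) (hn : 1 ≤ n) (F : Type) [Field F] :
    Nat.card (Subgroup.center (Matrix.SpecialLinearGroup (Fin n) F)) ≤ n := by
  have i : Fin n := ⟨0, by omega⟩
  rw [Nat.card_congr (Matrix.SpecialLinearGroup.center_equiv_rootsOfUnity' i).toEquiv,
    Fintype.card_fin]
  have : NeZero n := ⟨by omega⟩
  exact card_rootsOfUnity F n

/-- `q^{n^2-1} ≤ 4 n |PSL(n,q)|`. -/
theorem cardPSL25 (m : ℕ) (F : Type) [Field F] [Fintype F] :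
    Fintype.card F ^ (m * m + 2 * m) ≤
      4 * (m + 1) * Nat.card (Matrix.ProjectiveSpecialLinearGroup (Fin (m + 1)) F) := by
  have hq : 2 ≤ Fintype.card F := Fintype.one_lt_card
  have h1 := cardGL25 (m + 1) F
  have h2 := cardSL25 (m + 1) F
  have h3 := cardZ25 (m + 1) (by omega) F
  have h4 : Nat.card (Matrix.SpecialLinearGroup (Fin (m + 1)) F) =
      Nat.card (Matrix.ProjectiveSpecialLinearGroup (Fin (m + 1)) F) *
        Nat.card (Subgroup.center (Matrix.SpecialLinearGroup (Fin (m + 1)) F)) :=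
    Subgroup.card_eq_card_quotient_mul_card_subgroup _
  set q := Fintype.card F with hqd
  set T := Nat.card (Matrix.ProjectiveSpecialLinearGroup (Fin (m + 1)) F) with hT
  set Z := Nat.card (Subgroup.center (Matrix.SpecialLinearGroup (Fin (m + 1)) F)) with hZ
  have h5 : q * q ^ (m * m + 2 * m) ≤ q * (4 * (m + 1) * T) := by
    calc q * q ^ (m * m + 2 * m) = q ^ ((m + 1) * (m + 1)) := by
          rw [← pow_succ']
          congr 1
          ring
      _ ≤ 4 * Nat.card (GL (Fin (m + 1)) F) := h1
      _ ≤ 4 * (T * Z * (q - 1)) := by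
          refine Nat.mul_le_mul_left _ ?_
          rw [← h4]
          exact h2
      _ ≤ 4 * (T * (m + 1) * q) := by
          refine Nat.mul_le_mul_left _ (Nat.mul_le_mul (Nat.mul_le_mul_left _ h3) (Nat.sub_le _ _))
      _ = q * (4 * (m + 1) * T) := by ring
  exact Nat.le_of_mul_le_mul_left h5 (by omega)

/-- `|PSL(n,q)| ≤ q^{n^2}`. -/
theorem cardPSLle25 (n : ℕ) (F : Type) [Field F] [Fintype F] :
    Nat.card (Matrix.ProjectiveSpecialLinearGroup (Fin n) F) ≤ Fintype.card F ^ (n * n) := by
  calc Nat.card (Matrix.ProjectiveSpecialLinearGroup (Fin n) F)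
      ≤ Nat.card (Matrix.SpecialLinearGroup (Fin n) F) :=
        Nat.card_le_card_of_surjective _ (QuotientGroup.mk_surjective)
    _ ≤ Nat.card (Matrix (Fin n) (Fin n) F) :=
        Nat.card_le_card_of_injective (fun g => g.1) Subtype.val_injective
    _ = Fintype.card F ^ (n * n) := by
        have h : Nat.card (Fin n → Fin n → F) = Fintype.card F ^ (n * n) := by
          rw [Nat.card_fun, Nat.card_fun, Nat.card_eq_fintype_card, Nat.card_eq_fintype_card,
            Fintype.card_fin, ← pow_mul]
        exact h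

theorem submodule_inj25 {F V : Type} [Field F] [AddCommGroup V] [Module F V]
    {p p' : Projectivization F V} (h : p'.submodule ≤ p.submodule) : p' = p := by
  refine Projectivization.submodule_injective (Submodule.eq_of_le_of_finrank_eq h ?_)
  rw [Projectivization.finrank_submodule, Projectivization.finrank_submodule]

theorem stab25 {n : ℕ} {F : Type} [Field F] (p : Projectivization F (Fin n → F)) :
    SubStab p.submodule =
      MulAction.stabilizer (Matrix.ProjectiveSpecialLinearGroup (Fin n) F) p := by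
  ext g
  constructor
  · intro hg
    exact submodule_inj25 ((hg p).2 le_rfl)
  · intro hg p'
    have hg' : g • p = p := hg
    constructor
    · intro h
      have h1 : g • p' = p := submodule_inj25 h
      have h2 : p' = p := by
        have h3 : g • p' = g • p := by rw [h1, hg']
        exact MulAction.injective g h3
      rw [h2]
    · intro h
      rw [submodule_inj25 h, hg']

theorem span25 {F V : Type} [Field F] [AddCommGroup V] [Module F V] (W : Submodule F V)
    (h : finrank F W = 1) : ∃ p : Projectivization F V, p.submodule = W := by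
  obtain ⟨v, hv, hspan⟩ := finrank_eq_one_iff'.1 h
  have hv0 : (v : V) ≠ 0 := fun h => hv (Subtype.ext h)
  have : Module.Finite F W := Module.finite_of_finrank_pos (by omega)
  refine ⟨Projectivization.mk F v.1 hv0, ?_⟩
  rw [Projectivization.submodule_mk]
  refine Submodule.eq_of_le_of_finrank_eq ?_ ?_
  · rw [Submodule.span_singleton_le_iff_mem]
    exact v.2
  · rw [finrank_span_singleton hv0]
    exact h.symm

/-- The number of subspaces of dimension one or of codimension one. -/
theorem count25 (n : ℕ) (F : Type) [Field F] [Fintype F] :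
    Set.ncard {W : Submodule F (Fin n → F) | finrank F W = 1 ∨ finrank F W + 1 = n} ≤
      2 * Nat.card (Projectivization F (Fin n → F)) := by
  classical
  have : Finite (Submodule F (Fin n → F)) :=
    Finite.of_injective (fun W : Submodule F (Fin n → F) => (W : Set (Fin n → F)))
      SetLike.coe_injective
  have : Finite (Module.Dual F (Fin n → F)) :=
    Finite.of_injective (fun f : Module.Dual F (Fin n → F) => (f : (Fin n → F) → F))
      DFunLike.coe_injective
  have h1 : {W : Submodule F (Fin n → F) | finrank F W = 1} ⊆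
      Set.range (fun p : Projectivization F (Fin n → F) => p.submodule) := by
    intro W hW
    exact span25 W hW
  have h2 : {W : Submodule F (Fin n → F) | finrank F W + 1 = n} ⊆
      Set.range (fun p : Projectivization F (Module.Dual F (Fin n → F)) =>
        p.submodule.dualCoannihilator) := by
    intro W hW
    have hW' : finrank F W + 1 = n := hW
    have h3 : finrank F W.dualAnnihilator = 1 := by
      have h4 := Subspace.finrank_add_finrank_dualAnnihilator_eq W
      rw [Module.finrank_fin_fun] at h4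
      omega
    obtain ⟨p, hp⟩ := span25 (V := Module.Dual F (Fin n → F)) W.dualAnnihilator h3
    refine ⟨p, ?_⟩
    show p.submodule.dualCoannihilator = W
    rw [hp, Subspace.dualAnnihilator_dualCoannihilator_eq]
  have h6 : Nat.card (Projectivization F (Module.Dual F (Fin n → F))) =
      Nat.card (Projectivization F (Fin n → F)) := by
    rw [Projectivization.card_of_finrank F _ (n := n)
      (by rw [Subspace.dual_finrank_eq, Module.finrank_fin_fun]),
      Projectivization.card_of_finrank F _ (n := n) (Module.finrank_fin_fun F)]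
  have h7 : ∀ {α β : Type} [Finite α] (f : α → β), (Set.range f).ncard ≤ Nat.card α := by
    intro α β _ f
    rw [← Set.image_univ, ← Set.ncard_univ α]
    exact Set.ncard_image_le (Set.toFinite _)
  calc Set.ncard {W : Submodule F (Fin n → F) | finrank F W = 1 ∨ finrank F W + 1 = n}
      ≤ Set.ncard {W : Submodule F (Fin n → F) | finrank F W = 1} +
        Set.ncard {W : Submodule F (Fin n → F) | finrank F W + 1 = n} := Set.ncard_union_le _ _
    _ ≤ Nat.card (Projectivization F (Fin n → F)) +
        Nat.card (Projectivization F (Fin n → F)) := by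
        refine Nat.add_le_add ?_ ?_
        · exact (Set.ncard_le_ncard h1 (Set.toFinite _)).trans (h7 _)
        · rw [← h6]
          exact (Set.ncard_le_ncard h2 (Set.toFinite _)).trans (h7 _)
    _ = _ := by ring

/-- `PSL(m+1,F)`. -/
abbrev PS25 (m : ℕ) (F : Type) [Field F] : Type :=
  Matrix.ProjectiveSpecialLinearGroup (Fin (m + 1)) F

/-- The row DPSL. -/
theorem dpsl25 (hDG : StDG) : StDPSL := by
  intro n F G _ _ _ _ _ _ _ hn harith hHol
  classical
  obtain ⟨m, rfl⟩ : ∃ m, n = m + 1 := ⟨n - 1, by omega⟩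
  have hm : 1 ≤ m := by omega
  have hq : 2 ≤ Fintype.card F := Fintype.one_lt_card
  have : Finite (PS25 m F) := Fintype.finite inferInstance
  set q := Fintype.card F with hqd
  set N := Nat.card (Projectivization F (Fin (m + 1) → F)) with hN
  have hN1 : N * (q - 1) = q ^ (m + 1) - 1 := by
    have h := Projectivization.card F (Fin (m + 1) → F)
    rw [Nat.card_fun, Nat.card_eq_fintype_card, Nat.card_eq_fintype_card, Fintype.card_fin] at h
    exact h.symm
  have hpow : ∀ k, 1 ≤ q ^ k := fun k => Nat.one_le_pow _ _ (by omega)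
  have hN2 : N ≤ 2 * q ^ m := by
    have h1 : N * (q - 1) ≤ 2 * q ^ m * (q - 1) := by
      rw [hN1]
      have h2 : q ^ (m + 1) ≤ 2 * q ^ m * (q - 1) := by
        rw [pow_succ]
        have h3 : q ≤ 2 * (q - 1) := by omega
        calc q ^ m * q ≤ q ^ m * (2 * (q - 1)) := Nat.mul_le_mul_left _ h3
          _ = 2 * q ^ m * (q - 1) := by ring
      omega
    exact Nat.le_of_mul_le_mul_right h1 (by omega)
  have hN3 : 2 ≤ N := by
    by_contra hcon
    have h1 : N ≤ 1 := by omega
    have h2 : N * (q - 1) ≤ q - 1 := by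
      calc N * (q - 1) ≤ 1 * (q - 1) := Nat.mul_le_mul_right _ h1
        _ = q - 1 := one_mul _
    rw [hN1] at h2
    have h3 : q ^ 2 ≤ q ^ (m + 1) := Nat.pow_le_pow_right (by omega) (by omega)
    have h4 : q < q ^ 2 := by nlinarith
    omega
  have : Nonempty (Projectivization F (Fin (m + 1) → F)) := by
    have : 0 < N := by omega
    exact (Nat.card_pos_iff.1 this).1
  obtain ⟨p⟩ := this
  have hidx : (SubStab p.submodule : Subgroup (PS25 m F)).index = N := by
    rw [stab25 p]
    exact MulAction.index_stabilizer_of_transitive (PS25 m F) p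
  have hPSL := cardPSL25 m F
  have hPSLle := cardPSLle25 (m + 1) F
  rw [← hqd] at hPSL hPSLle
  have hcardT : Nat.card (PS25 m F) = Fintype.card (PS25 m F) := Nat.card_eq_fintype_card
  have harith' : 64 * (m + 1) ^ 3 * (Nat.log 2 q + 1) ≤ q ^ (m ^ 2) := by
    have := harith
    rwa [Nat.add_sub_cancel] at this
  -- |T| is large
  have hlarge : 16 * (m + 1) ^ 2 * (Nat.log 2 q + 1) * q ^ (2 * m) ≤ Nat.card (PS25 m F) := by
    have h1 : (4 * (m + 1)) * (16 * (m + 1) ^ 2 * (Nat.log 2 q + 1) * q ^ (2 * m)) ≤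
        (4 * (m + 1)) * Nat.card (PS25 m F) := by
      calc (4 * (m + 1)) * (16 * (m + 1) ^ 2 * (Nat.log 2 q + 1) * q ^ (2 * m))
          = (64 * (m + 1) ^ 3 * (Nat.log 2 q + 1)) * q ^ (2 * m) := by ring
        _ ≤ q ^ (m ^ 2) * q ^ (2 * m) := Nat.mul_le_mul_right _ harith'
        _ = q ^ (m * m + 2 * m) := by rw [← pow_add, sq]
        _ ≤ (4 * (m + 1)) * Nat.card (PS25 m F) := hPSL
    exact Nat.le_of_mul_le_mul_left h1 (by omega)
  have hcm : Nat.card (SubStab p.submodule : Subgroup (PS25 m F)) * N = Nat.card (PS25 m F) := by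
    rw [← hidx]
    exact Subgroup.card_mul_index _
  have hHpos : 0 < Nat.card (SubStab p.submodule : Subgroup (PS25 m F)) := Nat.card_pos
  refine hDG (PS25 m F) G _ (SubStab p.submodule) (2 * N) hHol ?_ ?_ ?_ ?_
  · -- not trivial
    intro hbot
    have h1 : Nat.card (SubStab p.submodule : Subgroup (PS25 m F)) = 1 := by
      rw [hbot]
      exact Subgroup.card_bot
    rw [h1, one_mul] at hcm
    have h2 : 16 * (m + 1) ^ 2 * (Nat.log 2 q + 1) * q ^ (2 * m) ≤ 2 * q ^ m := by
      rw [← hcm] at hlarge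
      exact hlarge.trans hN2
    have h3 : q ^ m ≤ q ^ (2 * m) := Nat.pow_le_pow_right (by omega) (by omega)
    have h4 : 16 * 1 * 1 * q ^ (2 * m) ≤ 16 * (m + 1) ^ 2 * (Nat.log 2 q + 1) * q ^ (2 * m) := by
      refine Nat.mul_le_mul_right _ (Nat.mul_le_mul (Nat.mul_le_mul_left _ ?_) (by omega))
      exact Nat.one_le_pow _ _ (by omega)
    have h5 := hpow m
    omega
  · intro htop
    rw [htop, Subgroup.index_top] at hidx
    omega
  · have hsub : {K : Subgroup (PS25 m F) | ∃ α ∈ {α : MulAut (PS25 m F) | ∀ p : Projectivization F (Fin (m + 1) → F),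
        ∃ W : Submodule F (Fin (m + 1) → F),
        (Module.finrank F W = 1 ∨ Module.finrank F W + 1 = m + 1) ∧
        (SubStab p.submodule).map α.toMonoidHom = SubStab W},
        K = (SubStab p.submodule : Subgroup (PS25 m F)).map α.toMonoidHom} ⊆
        (fun W : Submodule F (Fin (m + 1) → F) => (SubStab W : Subgroup (PS25 m F))) ''
          {W | finrank F W = 1 ∨ finrank F W + 1 = m + 1} := by
      rintro K ⟨α, hα, rfl⟩
      obtain ⟨W, hW, hW2⟩ := hα p
      exact ⟨W, hW, hW2.symm⟩
    have : Finite (Submodule F (Fin (m + 1) → F)) :=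
      Finite.of_injective (fun W : Submodule F (Fin (m + 1) → F) => (W : Set (Fin (m + 1) → F)))
        SetLike.coe_injective
    refine (Set.ncard_le_ncard hsub (Set.toFinite _)).trans ?_
    exact (Set.ncard_image_le (Set.toFinite _)).trans (count25 (m + 1) F)
  · rw [hidx]
    have hH1 : Nat.card (SubStab p.submodule : Subgroup (PS25 m F)) + 1 ≤ Nat.card (PS25 m F) := by
      rw [← hcm]
      calc Nat.card (SubStab p.submodule : Subgroup (PS25 m F)) + 1
          ≤ Nat.card (SubStab p.submodule : Subgroup (PS25 m F)) * 2 := by omega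
        _ ≤ _ := Nat.mul_le_mul_left _ hN3
    have hq2 : q ≤ 2 ^ (Nat.log 2 q + 1) := (Nat.lt_pow_succ_log_self (by norm_num) q).le
    have hH2 : Nat.card (SubStab p.submodule : Subgroup (PS25 m F)) + 1 ≤
        2 ^ ((Nat.log 2 q + 1) * ((m + 1) * (m + 1))) := by
      refine (hH1.trans hPSLle).trans ?_
      rw [pow_mul 2]
      exact Nat.pow_le_pow_left hq2 _
    calc (Nat.card (SubStab p.submodule : Subgroup (PS25 m F)) + 1) ^ (N * (2 * N))
        ≤ (2 ^ ((Nat.log 2 q + 1) * ((m + 1) * (m + 1)))) ^ (N * (2 * N)) :=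
          Nat.pow_le_pow_left hH2 _
      _ = 2 ^ ((Nat.log 2 q + 1) * ((m + 1) * (m + 1)) * (N * (2 * N))) := by rw [← pow_mul]
      _ < 2 ^ Nat.card (PS25 m F) := by
          refine Nat.pow_lt_pow_right (by norm_num) ?_
          have h1 : N * (2 * N) ≤ 8 * q ^ (2 * m) := by
            calc N * (2 * N) ≤ (2 * q ^ m) * (2 * (2 * q ^ m)) :=
                  Nat.mul_le_mul hN2 (Nat.mul_le_mul_left _ hN2)
              _ = 8 * q ^ (2 * m) := by rw [two_mul m, pow_add]; ring
          have h2 : (Nat.log 2 q + 1) * ((m + 1) * (m + 1)) * (N * (2 * N)) ≤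
              8 * (m + 1) ^ 2 * (Nat.log 2 q + 1) * q ^ (2 * m) := by
            calc (Nat.log 2 q + 1) * ((m + 1) * (m + 1)) * (N * (2 * N))
                ≤ (Nat.log 2 q + 1) * ((m + 1) * (m + 1)) * (8 * q ^ (2 * m)) :=
                  Nat.mul_le_mul_left _ h1
              _ = _ := by ring
          have h3 : 0 < 8 * (m + 1) ^ 2 * (Nat.log 2 q + 1) * q ^ (2 * m) := by
            have := hpow (2 * m)
            positivity
          have h4 : 16 * (m + 1) ^ 2 * (Nat.log 2 q + 1) * q ^ (2 * m) =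
              2 * (8 * (m + 1) ^ 2 * (Nat.log 2 q + 1) * q ^ (2 * m)) := by ring
          omega

end SpreadPerm.DG
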