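import Mathlib
import Pool.Agent.Lib.MP_e6ed9e_al.Index

/-!
# Groups of diagonal type with two factors: statements of the modules
-/

namespace SpreadPerm.DG

open MulAction

/-- `G` acts on the group `T` by the maps `x ↦ c α(x)` and `x ↦ c α(x)⁻¹`, `c ∈ T`, `α ∈ A`. -/
def Hol (T G : Type) [Group T] [Group G] [MulAction G T] (A : Set (MulAut T)) : Prop :=
  ∀ g : G, ∃ (c : T), ∃ α ∈ A, (∀ x : T, g • x = c * α x) ∨ ∀ x : T, g • x = c * (α x)⁻¹

/-- DG: a subgroup `H` with at most `k` images under `A`, `(|H| + 1) ^ (|T : H| k) < 2 ^ |T|`. -/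
def StDG : Prop := ∀ (T G : Type) [Group T] [Fintype T] [Group G] [Finite G] [MulAction G T]
  [IsPretransitive G T] (A : Set (MulAut T)) (H : Subgroup T) (k : ℕ), Hol T G A → H ≠ ⊥ → H ≠ ⊤ →
  Set.ncard {K : Subgroup T | ∃ α ∈ A, K = H.map α.toMonoidHom} ≤ k →
  (Nat.card H + 1) ^ (H.index * k) < 2 ^ Nat.card T → NonSpreading G T

/-- DALT: `T` an alternating group, `A` the conjugations by elements of the symmetric group. -/
def StDAlt : Prop := ∀ (m : ℕ) (G : Type) [Group G] [Finite G] [MulAction G (alternatingGroup (Fin m))]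
  [IsPretransitive G (alternatingGroup (Fin m))] [Fintype (alternatingGroup (Fin m))], 7 ≤ m →
  Hol (alternatingGroup (Fin m)) G {α | ∃ s : Equiv.Perm (Fin m), ∀ x : alternatingGroup (Fin m),
    ((α x : alternatingGroup (Fin m)) : Equiv.Perm (Fin m)) = s * x * s⁻¹} →
  NonSpreading G (alternatingGroup (Fin m))

/-- The stabilizer in `PSL(n,F)` of the subspace `W`. -/
def SubStab {n : ℕ} {F : Type} [Field F] (W : Submodule F (Fin n → F)) :
    Subgroup (Matrix.ProjectiveSpecialLinearGroup (Fin n) F) where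
  carrier := {g | ∀ p : Projectivization F (Fin n → F), (g • p).submodule ≤ W ↔ p.submodule ≤ W}
  one_mem' := fun p => by rw [one_smul]
  mul_mem' := fun {g h} hg hh p => by rw [mul_smul, hg, hh]
  inv_mem' := fun {g} hg p => by
    have := hg (g⁻¹ • p)
    rw [smul_inv_smul] at this
    exact this.symm

/-- DPSL: `T = PSL(n,q)`, `A` the automorphisms which map each stabilizer of a point to the
stabilizer of a point or of a hyperplane (these are all automorphisms). -/
def StDPSL : Prop := ∀ (n : ℕ) (F G : Type) [Field F] [Fintype F] [Group G] [Finite G]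
  [MulAction G (Matrix.ProjectiveSpecialLinearGroup (Fin n) F)]
  [IsPretransitive G (Matrix.ProjectiveSpecialLinearGroup (Fin n) F)]
  [Fintype (Matrix.ProjectiveSpecialLinearGroup (Fin n) F)], 2 ≤ n →
  64 * n ^ 3 * (Nat.log 2 (Fintype.card F) + 1) ≤ Fintype.card F ^ ((n - 1) ^ 2) →
  Hol (Matrix.ProjectiveSpecialLinearGroup (Fin n) F) G
    {α | ∀ p : Projectivization F (Fin n → F), ∃ W : Submodule F (Fin n → F),
      (Module.finrank F W = 1 ∨ Module.finrank F W + 1 = n) ∧
      (SubStab p.submodule).map α.toMonoidHom = SubStab W} →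
  NonSpreading G (Matrix.ProjectiveSpecialLinearGroup (Fin n) F)

end SpreadPerm.DG
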