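import Pool.Agent.Lib.MP_e6ed9e_al.DG.Defs

/-!
# Row DFAC: factorizations
-/

namespace SpreadPerm.DG

open MulAction

/-- Every coset of `K` meets `H` in `|H ∩ K|` points if `T = H K`. -/
theorem card_fac {T : Type} [Group T] [Fintype T] [DecidableEq T] (H K : Subgroup T)
    [DecidablePred (· ∈ H)] [DecidablePred (· ∈ K)]
    (hf : ∀ x : T, ∃ h ∈ H, ∃ k ∈ K, x = h * k) (c : T) :
    (Finset.univ.filter fun x : T => x ∈ H ∧ c⁻¹ * x ∈ K).card =
      (Finset.univ.filter fun x : T => x ∈ H ∧ x ∈ K).card := by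
  obtain ⟨h, hh, k, hk, rfl⟩ := hf c
  symm
  refine Finset.card_bij (fun x _ => h * x) ?_ ?_ ?_
  · intro x hx
    rw [Finset.mem_filter] at hx ⊢
    refine ⟨Finset.mem_univ _, H.mul_mem hh hx.2.1, ?_⟩
    rw [show (h * k)⁻¹ * (h * x) = k⁻¹ * x by group]
    exact K.mul_mem (K.inv_mem hk) hx.2.2
  · intro x _ y _ hxy
    exact mul_left_cancel hxy
  · intro y hy
    rw [Finset.mem_filter] at hy
    refine ⟨h⁻¹ * y, ?_, by group⟩
    rw [Finset.mem_filter]
    refine ⟨Finset.mem_univ _, H.mul_mem (H.inv_mem hh) hy.2.1, ?_⟩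
    have := K.mul_mem hk hy.2.2
    rwa [show k * ((h * k)⁻¹ * y) = h⁻¹ * y by group] at this

theorem dfac47 (T G : Type) [Group T] [Fintype T] [Group G] [Finite G] [MulAction G T]
    [IsPretransitive G T] (A : Set (MulAut T)) (H K : Subgroup T) (hG : Hol T G A) (hb : H ≠ ⊥)
    (ht : H ≠ ⊤) (hK : K ≠ ⊤) (hf : ∀ α ∈ A, ∀ x : T, ∃ h ∈ H, ∃ k ∈ K, x = h * α k) :
    NonSpreading G T := by
  classical
  obtain ⟨c0, α0, hα0, -⟩ := hG 1
  have hKb : K ≠ ⊥ := by
    rintro rfl
    apply ht
    rw [eq_top_iff]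
    intro x _
    obtain ⟨h, hh, k, hk, rfl⟩ := hf α0 hα0 x
    rw [Subgroup.mem_bot] at hk
    rw [hk, map_one, mul_one]
    exact hh
  have htriv : ∀ L : Subgroup T, L ≠ ⊥ → L ≠ ⊤ → ¬ Triv fun x : T => if x ∈ L then 1 else 0 := by
    rintro L hL1 hL2 (⟨c, hc⟩ | ⟨i, hi⟩)
    · apply hL2
      rw [eq_top_iff]
      intro x _
      by_contra hx
      have h1 : (if x ∈ L then 1 else 0) = c := hc x
      have h2 : (if (1 : T) ∈ L then 1 else 0) = c := hc 1
      rw [if_neg hx] at h1
      rw [if_pos L.one_mem, ← h1] at h2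
      exact one_ne_zero h2
    · apply hL1
      rw [eq_bot_iff]
      intro x hx
      rw [Subgroup.mem_bot]
      have h1 : x = i := (hi x).1 (by
        show (if x ∈ L then 1 else 0) ≠ 0
        rw [if_pos hx]
        exact one_ne_zero)
      have h2 : 1 = i := (hi 1).1 (by
        show (if (1 : T) ∈ L then 1 else 0) ≠ 0
        rw [if_pos L.one_mem]
        exact one_ne_zero)
      rw [h1, h2]
  let A' : T → ℕ := fun x => if x ∈ H then 1 else 0
  let B' : T → ℕ := fun x => if x ∈ K then 1 else 0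
  -- the intersections
  have hcard : ∀ α ∈ A, (Finset.univ.filter fun x : T => x ∈ H ∧ x ∈ K.map α.toMonoidHom).card *
      Fintype.card T = Nat.card H * Nat.card K := by
    intro α hα
    have hf' : ∀ x : T, ∃ h ∈ H, ∃ k ∈ K.map α.toMonoidHom, x = h * k := by
      intro x
      obtain ⟨h, hh, k, hk, rfl⟩ := hf α hα x
      exact ⟨h, hh, α k, ⟨k, hk, rfl⟩, rfl⟩
    have h1 := card_fac H (K.map α.toMonoidHom) hf'
    have h2 : ∑ c : T, (Finset.univ.filter fun x : T => x ∈ H ∧ c⁻¹ * x ∈ K.map α.toMonoidHom).card =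
        Nat.card H * Nat.card K := by
      have h3 : ∀ c : T, (Finset.univ.filter fun x : T => x ∈ H ∧
          c⁻¹ * x ∈ K.map α.toMonoidHom).card =
          ∑ x : T, if x ∈ H ∧ c⁻¹ * x ∈ K.map α.toMonoidHom then 1 else 0 := by
        intro c
        rw [Finset.card_filter]
      simp only [h3]
      rw [Finset.sum_comm]
      have h4 : ∀ x : T, (∑ c : T, if x ∈ H ∧ c⁻¹ * x ∈ K.map α.toMonoidHom then 1 else 0) =
          if x ∈ H then Nat.card K else 0 := by
        intro x
        by_cases hx : x ∈ H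
        · simp only [hx, true_and, if_true]
          rw [← Finset.card_filter]
          have h5 : Nat.card K = Nat.card (K.map α.toMonoidHom) :=
            Nat.card_congr (K.equivMapOfInjective α.toMonoidHom α.injective).toEquiv
          rw [h5, Nat.card_eq_fintype_card, Fintype.card_subtype]
          refine Finset.card_bij (fun c _ => c⁻¹ * x) ?_ ?_ ?_
          · intro c hc
            rw [Finset.mem_filter] at hc ⊢
            exact ⟨Finset.mem_univ _, hc.2⟩
          · intro c _ d _ hcd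
            exact inv_injective (mul_right_cancel hcd)
          · intro y hy
            refine ⟨x * y⁻¹, ?_, by group⟩
            rw [Finset.mem_filter] at hy ⊢
            refine ⟨Finset.mem_univ _, ?_⟩
            rw [show (x * y⁻¹)⁻¹ * x = y by group]
            exact hy.2
        · simp [hx]
      simp only [h4]
      rw [← Finset.sum_filter, Finset.sum_const, smul_eq_mul]
      congr 1
      rw [Nat.card_eq_fintype_card, Fintype.card_subtype]
    rw [← h2]
    simp only [h1]
    rw [Finset.sum_const, smul_eq_mul, Finset.card_univ, mul_comm]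
  have hTpos : 0 < Fintype.card T := Fintype.card_pos
  obtain ⟨l, hl⟩ : ∃ l : ℕ, l * Fintype.card T = Nat.card H * Nat.card K := ⟨_, hcard α0 hα0⟩
  refine ⟨A', B', l, ?_, htriv H hb ht, htriv K hKb hK, ?_, ?_, ?_⟩
  · rcases Nat.eq_zero_or_pos l with h | h
    · rw [h, zero_mul] at hl
      have h1 : 0 < Nat.card H := Nat.card_pos
      have h2 : 0 < Nat.card K := Nat.card_pos
      have := Nat.mul_pos h1 h2
      omega
    · exact h
  · intro g
    obtain ⟨c, α, hα, hg⟩ := hG g
    have hmem : ∀ x : T, g⁻¹ • x ∈ K ↔ c⁻¹ * x ∈ K.map α.toMonoidHom := by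
      intro x
      obtain ⟨y, rfl⟩ : ∃ y, x = g • y := ⟨g⁻¹ • x, by rw [smul_inv_smul]⟩
      rw [inv_smul_smul]
      rcases hg with hg | hg
      · rw [hg, inv_mul_cancel_left]
        constructor
        · intro h
          exact ⟨y, h, rfl⟩
        · rintro ⟨z, hz, hzy⟩
          have : z = y := α.injective hzy
          rwa [← this]
      · rw [hg, inv_mul_cancel_left]
        constructor
        · intro h
          exact ⟨y⁻¹, K.inv_mem h, map_inv α y⟩
        · rintro ⟨z, hz, hzy⟩
          have h1 : α z = α y⁻¹ := by rw [map_inv]; exact hzy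
          have : z = y⁻¹ := α.injective h1
          rw [this] at hz
          exact K.inv_mem_iff.1 hz
    have h1 : ∑ i : T, A' i * B' (g⁻¹ • i) =
        (Finset.univ.filter fun x : T => x ∈ H ∧ c⁻¹ * x ∈ K.map α.toMonoidHom).card := by
      rw [Finset.card_filter]
      refine Finset.sum_congr rfl fun x _ => ?_
      show (if x ∈ H then 1 else 0) * (if g⁻¹ • x ∈ K then 1 else 0) = _
      by_cases h2 : x ∈ H
      · by_cases h3 : g⁻¹ • x ∈ K
        · rw [if_pos h2, if_pos h3, if_pos (And.intro h2 ((hmem x).1 h3))]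
        · have h4 : ¬ (x ∈ H ∧ c⁻¹ * x ∈ K.map α.toMonoidHom) := fun h => h3 ((hmem x).2 h.2)
          rw [if_pos h2, if_neg h3, if_neg h4]
      · have h4 : ¬ (x ∈ H ∧ c⁻¹ * x ∈ K.map α.toMonoidHom) := fun h => h2 h.1
        rw [if_neg h2, if_neg h4, zero_mul]
    have hf' : ∀ x : T, ∃ h ∈ H, ∃ k ∈ K.map α.toMonoidHom, x = h * k := by
      intro x
      obtain ⟨h, hh, k, hk, rfl⟩ := hf α hα x
      exact ⟨h, hh, α k, ⟨k, hk, rfl⟩, rfl⟩
    rw [h1, card_fac H _ hf' c]
    have h2 := hcard α hα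
    rw [← hl] at h2
    exact Nat.eq_of_mul_eq_mul_right hTpos h2
  · intro i
    show (if i ∈ K then 1 else 0) = 0 ∨ (if i ∈ K then 1 else 0) = 1
    by_cases h : i ∈ K
    · right; rw [if_pos h]
    · left; rw [if_neg h]
  · have h1 : ∑ i : T, A' i = Nat.card H := by
      show ∑ i : T, (if i ∈ H then 1 else 0) = _
      rw [← Finset.card_filter, Nat.card_eq_fintype_card, Fintype.card_subtype]
    rw [h1, ← Nat.card_eq_fintype_card]
    exact Subgroup.card_subgroup_dvd_card H

end SpreadPerm.DG
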